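import Pool.Agent.Q226.PSC.Defs
import Pool.Agent.Z125.UN.MotDefs

set_option autoImplicit false

/-!
# Schur-finiteness for surfaces and products of surfaces and abelian varieties: definitions
-/

open CategoryTheory CategoryTheory.Limits MonoidalCategory Pretriangulated AlgebraicGeometry

universe v u

namespace Pool.Agent.Q226.PSF

open Pool.Agent.Q226.SC (Geo IsSummand)
open Pool.Agent.Q226.PS (Data)
open Pool.Agent.Q226.PSC (Thick)
open Pool.Agent.Y116.UV (Sch FT IsTriple)
open Pool.Agent.TH137.DG (IsSchurFinite)
open Pool.Agent.Z125.UN (Motives)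

/-- The complex schemes which are obtained from the smooth projective connected varieties of
dimension at most `2` by decompositions `X = Z ∪ U` into a closed subscheme `Z` and its complement
`U`: if two of the three schemes are obtained then so is the third. -/
inductive Built (G : Geo) (sch : G.Var → Sch ℂ) : Sch ℂ → Prop
  | of (X : G.Var) : G.dim X ≤ 2 → Built G sch (sch X)
  | total {Z X U : Sch ℂ} (i : Z ⟶ X) (j : U ⟶ X) : FT True X → IsTriple i j →
      Built G sch Z → Built G sch U → Built G sch X
  | opened {Z X U : Sch ℂ} (i : Z ⟶ X) (j : U ⟶ X) : FT True X → IsTriple i j →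
      Built G sch Z → Built G sch X → Built G sch U
  | closed {Z X U : Sch ℂ} (i : Z ⟶ X) (j : U ⟶ X) : FT True X → IsTriple i j →
      Built G sch X → Built G sch U → Built G sch Z

variable {G : Geo} {C : Type u} [Category.{v} C] [MonoidalCategory C]

/-- The objects `h(X_1 × ⋯ × X_r) ⊗ L^i` of `DM_gm`, where the `X_j` are curves, surfaces or abelian
varieties. -/
def ProductObject (D : Data G C) (N : C) : Prop :=
  ∃ (l : List G.Var) (i : ℤ), (∀ X ∈ l, G.dim X ≤ 2 ∨ D.AV X) ∧ N = D.prod l ⊗ D.L i

/-- Known facts on the category `C = DM_gm(ℂ)` with rational coefficients; `sch X` is the variety `X`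
as a scheme, `h(X) = M(X)(-d)[-2d]` for `d = dim X`, and `L^i = ℚ(-i)[-2i]`.
* `built`: compactifications and resolution of singularities in dimension at most `2`.
* `tensor`: tensor products of Schur-finite objects (Deligne).
* `comp`: the direct summands `h^j(A)` of the motives of abelian varieties (Shermenev, Kimura). -/
structure Link [SymmetricCategory C] [Preadditive C] [Linear ℚ C] (Mot : Motives ℂ C)
    (D : Data G C) (sch : G.Var → Sch ℂ) : Prop where
  finite : ∀ X : G.Var, FT True (sch X)
  smooth : ∀ X : G.Var, Smooth (sch X).hom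
  dim : ∀ X : G.Var, topologicalKrullDim (sch X).left = G.dim X
  motive : ∀ X : G.Var, Nonempty (D.h X ≅ Mot.M (sch X) ⊗ D.L (G.dim X))
  built : ∀ U : Sch ℂ, FT True U → Smooth U.hom → topologicalKrullDim U.left ≤ 2 →
    Built G sch U
  tensor : ∀ A B : C, IsSchurFinite A → IsSchurFinite B → IsSchurFinite (A ⊗ B)
  lef : ∀ i : ℤ, IsSchurFinite (D.L i)
  comp : ∀ (A : G.Var) (j : ℕ), D.AV A → IsSchurFinite (D.comp A j)

end Pool.Agent.Q226.PSF
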