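import Pool.Agent.Q226.PSF.Defs
import Pool.Agent.Z125.UN.MotUni
import Pool.Agent.Z125.UN.Dim2
import Pool.Agent.Z125.UN.Sym

set_option autoImplicit false

/-!
# Schur-finiteness for surfaces and products of surfaces and abelian varieties
-/

open CategoryTheory CategoryTheory.Limits MonoidalCategory Pretriangulated AlgebraicGeometry

universe v u

namespace Pool.Agent.Q226.PSF

open Pool.Agent.Q226.SC (Geo IsSummand)
open Pool.Agent.Q226.PS
open Pool.Agent.Q226.PSC (Thick)
open Pool.Agent.Y116.UV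
open Pool.Agent.TH137.DG (IsSchurFinite)
open Pool.Agent.Z125.UN

variable {G : Geo} {C : Type u} [Category.{v} C] [MonoidalCategory C]
  [SymmetricCategory C] [Preadditive C] [Linear ℚ C] [HasZeroObject C] [HasShift C ℤ]
  [∀ n : ℤ, (shiftFunctor C n).Additive] [Pretriangulated C]
  {Mot : Motives ℂ C} {D : Data G C} {sch : G.Var → Sch ℂ}

theorem sf_summand {N K : C} (h : IsSummand N K) (hK : IsSchurFinite K) : IsSchurFinite N := by
  obtain ⟨a, b, hab⟩ := h
  exact sf_retract a b hab hK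

theorem sf_sum (hM : IsMotives Mot) {A B : C} (hA : IsSchurFinite A) (hB : IsSchurFinite B) :
    IsSchurFinite (A ⊞ B) :=
  hM.cone _ (inv_rot_of_distTriang _ (binaryBiproductTriangle_distinguished A B))
    (hM.shift _ (-1) hB) hA

/-- Direct summands of finite direct sums. -/
theorem sf_fac (hM : IsMotives Mot) {𝒞 : C → Prop} {N : C} (h : Fac 𝒞 N)
    (hc : ∀ K, 𝒞 K → IsSchurFinite K) : IsSchurFinite N := by
  classical
  obtain ⟨ι, _, K, a, b, hK, hs⟩ := h
  have key : ∀ s : Finset ι, ∃ (M : C) (x : N ⟶ M) (y : M ⟶ N), IsSchurFinite M ∧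
      x ≫ y = ∑ j ∈ s, a j ≫ b j := by
    intro s
    induction s using Finset.induction_on with
    | empty => exact ⟨𝟙_ C, 0, 0, sf_unit, by simp⟩
    | insert j s hj ih =>
      obtain ⟨M, x, y, hM', hxy⟩ := ih
      refine ⟨K j ⊞ M, biprod.lift (a j) x, biprod.desc (b j) y,
        sf_sum hM (hc _ (hK j)) hM', ?_⟩
      rw [biprod.lift_desc, hxy, Finset.sum_insert hj]
  obtain ⟨M, x, y, hM', hxy⟩ := key Finset.univ
  exact sf_retract x y (hxy.trans hs) hM'

theorem sf_prod (hL : Link Mot D sch) (l : List G.Var)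
    (h : ∀ X ∈ l, IsSchurFinite (D.h X)) : IsSchurFinite (D.prod l) := by
  induction l with
  | nil => exact sf_unit
  | cons X l ih =>
    exact hL.tensor _ _ (h X List.mem_cons_self) (ih fun Y hY => h Y (List.mem_cons_of_mem _ hY))

variable [MonoidalPreadditive C]

/-- Schur-finiteness of the motives of all products. -/
theorem sf_products (hM : IsMotives Mot) (F : D.Facts) (hL : Link Mot D sch)
    (h : ∀ S : G.Var, G.dim S = 2 → G.SC S → IsSchurFinite (D.h S)) (l : List G.Var)
    (hl : ∀ X ∈ l, G.dim X ≤ 2 ∨ D.AV X) : IsSchurFinite (D.prod l) := by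
  refine sf_fac hM (W_prod F l hl) ?_
  rintro _ ⟨P, A, j, hP, hA, rfl⟩
  refine hL.tensor _ _ (sf_fac hM hP ?_) (hL.comp A j hA)
  rintro _ ⟨l, i, hl, rfl⟩
  exact hL.tensor _ _ (sf_prod hL l fun X hX => h X (hl X hX).1 (hl X hX).2) (hL.lef i)

/-- Schur-finiteness on a thick subcategory. -/
theorem sf_thick (hM : IsMotives Mot) {𝒞 : C → Prop} (hc : ∀ K, 𝒞 K → IsSchurFinite K) {N : C}
    (h : Thick 𝒞 N) : IsSchurFinite N := by
  induction h with
  | base N hN => exact hc N hN
  | shift N n _ ih => exact hM.shift N n ih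
  | cone T hT _ _ ih1 ih2 => exact hM.cone T hT ih1 ih2
  | summand N K h _ ih => exact sf_summand h ih

omit [MonoidalPreadditive C] in
theorem sf_h_iff (F : D.TensorFacts) (hL : Link Mot D sch) (X : G.Var) :
    IsSchurFinite (D.h X) ↔ IsSchurFinite (Mot.M (sch X)) := by
  obtain ⟨e⟩ := hL.motive X
  constructor
  · intro h
    obtain ⟨e2⟩ := unit_iso F (add_neg_cancel (G.dim X : ℤ))
    have e3 : Mot.M (sch X) ≅ D.h X ⊗ D.L (-(G.dim X : ℤ)) :=
      (ρ_ _).symm ≪≫ whiskerLeftIso _ e2.symm ≪≫ (α_ _ _ _).symm ≪≫ whiskerRightIso e.symm _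
    exact (sf_iso ⟨e3⟩).2 (hL.tensor _ _ h (hL.lef _))
  · exact fun h => (sf_iso ⟨e⟩).2 (hL.tensor _ _ h (hL.lef _))

omit [MonoidalPreadditive C] in
/-- Schur-finiteness of motives with compact support of the schemes that are built from smooth
projective varieties. -/
theorem sf_built (hM : IsMotives Mot) (hL : Link Mot D sch)
    (h : ∀ X : G.Var, G.dim X ≤ 2 → IsSchurFinite (Mot.M (sch X))) {U : Sch ℂ}
    (hU : Built G sch U) : IsSchurFinite (Mot.Mc U) := by
  have hB := bnd_sf hM
  induction hU with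
  | of X hX => exact (hM.duality _ (hL.finite X) (hL.smooth X)).1 (h X hX)
  | total i j hX ht _ _ ih1 ih2 => exact hB.total i j hX ht ih1 ih2
  | opened i j hX ht _ _ ih1 ih2 => exact hB.opened i j hX ht ih1 ih2
  | closed i j hX ht _ _ ih1 ih2 => exact hB.closed i j hX ht ih1 ih2

omit [MonoidalPreadditive C] in
lemma hyp_sf (hM : IsMotives Mot) {a b c : ℕ} (T : Fin a → Fin b → Fin c → ℂ) :
    IsSchurFinite (Mot.M (hypS T)) ↔ IsSchurFinite (Mot.Mc (hypS T)) :=
  hM.duality _ (ft_aff True) (smooth_hypS T)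

omit [MonoidalPreadditive C] in
/-- Schemes of dimension at most `2` and trilinear forms (the proof of
`MP_fc2ced_ag.CubicHypersurfaces`). -/
theorem dim_two_iff (hM : IsMotives Mot) :
    (∀ X : Sch ℂ, FT True X → Smooth X.hom → topologicalKrullDim X.left ≤ 2 →
        IsSchurFinite (Mot.M X)) ↔
      ∀ (a b c : ℕ) (T : Fin a → Fin b → Fin c → ℂ), (a ≤ 4 ∨ b ≤ 4 ∨ c ≤ 4) →
        IsSchurFinite (Mot.M (hypS T)) := by
  have hB := bnd_sf hM
  constructor
  · intro h a b c T hm
    have h1 : ∀ X : Sch ℂ, FT True X → topologicalKrullDim X.left ≤ (2 : ℕ) →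
        IsSchurFinite (Mot.Mc X) :=
      dim_smooth hB 2 fun X hX hs hn => (hM.duality X hX hs).mp (h X hX hs hn)
    have h2 : ∀ I : Ideal (MvPolynomial (Fin (2 + 1)) ℂ),
        IsSchurFinite (Mot.Mc (aff ℂ (MvPolynomial (Fin (2 + 1)) ℂ ⧸ I))) :=
      dim_to_closed hB fun A _ _ _ hA => h1 _ (ft_aff True) (by rw [topDim_aff]; exact hA)
    rw [hyp_sf hM]
    exact of_block hB (fun a b c' hc' T => to_tri hB h2 a b c' hc' T) T hm
  · intro h X hX hs hn
    rw [hM.duality X hX hs]
    exact (dim_tri hB 2).mpr (fun a b T =>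
      (hyp_sf hM T).mp (h a b (2 + 2) T (Or.inr (Or.inr le_rfl)))) X hX hn

/-- **Theorem.** The following are equivalent: the motives of the surfaces of a cofinal class of
simply connected surfaces are Schur-finite; the motives of all smooth complex schemes of dimension at
most two are Schur-finite; the same for the hypersurfaces `T(x, y, z) = 1` given by trilinear forms
with a block of at most four variables; all objects of the thick subcategory generated by the products
of curves, surfaces and abelian varieties are Schur-finite. -/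
theorem main (hM : IsMotives Mot) (F : D.Facts) (hL : Link Mot D sch) {𝒮 : G.Var → Prop}
    (h𝒮 : D.Cofinal 𝒮) :
    [∀ S : G.Var, 𝒮 S → IsSchurFinite (Mot.M (sch S)),
      ∀ X : Sch ℂ, FT True X → Smooth X.hom → topologicalKrullDim X.left ≤ 2 →
        IsSchurFinite (Mot.M X),
      ∀ (a b c : ℕ) (T : Fin a → Fin b → Fin c → ℂ), (a ≤ 4 ∨ b ≤ 4 ∨ c ≤ 4) →
        IsSchurFinite (Mot.M (hypS T)),
      ∀ N : C, Thick (ProductObject D) N → IsSchurFinite N].TFAE := by
  tfae_have 2 ↔ 3 := dim_two_iff hM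
  tfae_have 2 → 1 := fun h S hS => h _ (hL.finite S) (hL.smooth S) (by
    rw [hL.dim S, (h𝒮.sc S hS).1]
    exact le_rfl)
  tfae_have 1 → 4 := by
    intro h N hN
    refine sf_thick hM ?_ hN
    rintro _ ⟨l, i, hl, rfl⟩
    refine hL.tensor _ _ (sf_products hM F hL ?_ l hl) (hL.lef i)
    intro S hS hs
    obtain ⟨S', hS', hd⟩ := h𝒮.dom S hS hs
    exact sf_summand hd ((sf_h_iff F.tensor hL S').2 (h S' hS'))
  tfae_have 4 → 2 := by
    intro h U hU hs hd
    rw [hM.duality U hU hs]
    refine sf_built hM hL ?_ (hL.built U hU hs hd)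
    intro X hX
    refine (sf_h_iff F.tensor hL X).1 (sf_summand ?_ (h (D.prod [X] ⊗ D.L 0) (Thick.base _
      ⟨[X], 0, by simpa using Or.inl hX, rfl⟩)))
    obtain ⟨e⟩ := F.tensor.L_zero
    exact (summand_iso (ρ_ _).symm).trans (summand_iso ((ρ_ _).symm ≪≫ whiskerLeftIso _ e.symm))
  tfae_finish

end Pool.Agent.Q226.PSF
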